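import Mathlib
import Pool.Agent.Lib.MP_5c8a88_co.Defs
import Pool.Agent.Lib.MP_5c8a88_co.Example

/-! Some amenable group has infinitely many extremal densities. -/

namespace Pool.Agent.Results.MP_5c8a88_co.InfinitelyMany

open Pool.Agent.Lib.MP_5c8a88_co

/-- There is an amenable group with infinitely many extremal densities (one may take the group of
finitary permutations of `ℕ`). More generally `𝓔(G)` is infinite for every countable group `G` with
infinitely many conjugacy classes in which every conjugacy class except `{1}` is infinite. -/
theorem result :
    (∃ (G : Type) (_ : Group G), Amenable G ∧ (extremalDensities G).Infinite) ∧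
    ∀ (G : Type) [Group G], Countable G → Infinite (ConjClasses G) →
      (∀ g : G, g ≠ 1 → {x : G | ∃ z : G, x = z * g * z⁻¹}.Infinite) →
      (extremalDensities G).Infinite := by
  refine ⟨⟨FinPerm, inferInstance, FinPerm.amenable, FinPerm.infinite⟩, ?_⟩
  intro G _ hc hi h
  exact infinite_of_icc h

end Pool.Agent.Results.MP_5c8a88_co.InfinitelyMany
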